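import Pool.Agent.K3lead.SD.Pad

/-!
# No bounded dispersal is enough: the minimal dispersal `d(n)` grows linearly

For all `d ≥ 1` and `n ≥ 900 d` there is a real `P`-matrix of order `n` which satisfies `(S_d)`, that is
`A[α, β] A[β, α] ≥ 0` whenever `A[α, β]` has dispersal at most `d`, and has an eigenvalue with a real part
which is not positive. So `d(n) > n / 900`, while Carlson's theorem gives `d(n) ≤ max (1, n / 2)`.

Construction. `N` is the circulant matrix with the first row `(20, -15, -4)`: it is a `P`-matrix, all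
products `N[α, β] N[β, α]` are positive and it has the non-real eigenvalues `(59 ± 11 i √3) / 2`. Let `M` be
`s (N ⊗ J_r)` plus a tiny positive diagonal matrix, where `J_r` is the all-ones matrix of order
`r = 150 d` and `s r = 1.31`, and let `A = [[1, 1 - M], [1, 1]]`, a matrix of order `6 r`. Its
eigenvalues are `1 ± √(1 - m)`, `m` an eigenvalue of `M`, and one of them has a negative real part. Up
to a common sign the minors `A[α, β]` and `A[β, α]` are alternating sums
`∑_{P' ⊆ P} (-1)^{|P'|} M[P' ∪ R, P' ∪ C]` and `∑_{Q' ⊆ Q} (-1)^{|Q'|} M[Q' ∪ C, Q' ∪ R]`, where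
`|P|` and `|Q|` are at most the dispersal, or one of them is zero; and adding an index to both sides
of a minor of `M` multiplies it by less than `2 / (3 d)`. So the signs are those of `M[R, C]` and
`M[C, R]`, as long as the dispersal is at most `d`.
-/

set_option autoImplicit false

namespace Pool.Agent.Results.MP_40f31b_al.LinearDispersal

open Matrix

/-- The minor `A[α, β]` with the rows `α` and the columns `β`, both in increasing order. -/
noncomputable def minor {n : ℕ} (A : Matrix (Fin n) (Fin n) ℝ) (α β : Finset (Fin n))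
    (h : β.card = α.card) : ℝ :=
  (A.submatrix (α.orderEmbOfFin rfl) (β.orderEmbOfFin h)).det

/-- `A` is a `P`-matrix: all principal minors are positive. -/
def IsPMatrix {n : ℕ} (A : Matrix (Fin n) (Fin n) ℝ) : Prop :=
  ∀ α : Finset (Fin n), 0 < minor A α α rfl

/-- The condition `(S_d)`: `A[α, β] A[β, α] ≥ 0` whenever the dispersal `#(α \ β)` of `A[α, β]` is at
most `d`. -/
def SignSymmetric {n : ℕ} (d : ℕ) (A : Matrix (Fin n) (Fin n) ℝ) : Prop :=
  ∀ (α β : Finset (Fin n)) (h : β.card = α.card), (α \ β).card ≤ d →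
    0 ≤ minor A α β h * minor A β α h.symm

/-- `A` is stable: every complex eigenvalue has a positive real part. -/
def IsStable {n : ℕ} (A : Matrix (Fin n) (Fin n) ℝ) : Prop :=
  ∀ z ∈ spectrum ℂ (A.map (algebraMap ℝ ℂ)), 0 < z.re

/-- Every `P`-matrix of order `n` which satisfies `(S_d)` is stable. -/
def Forces (n d : ℕ) : Prop :=
  ∀ A : Matrix (Fin n) (Fin n) ℝ, IsPMatrix A → SignSymmetric d A → IsStable A

theorem main (n d : ℕ) (hd : 1 ≤ d) (h : Forces n d) : n < 900 * d := by
  by_contra hn
  obtain ⟨A, h1, h2, h3⟩ := Pool.Agent.K3lead.SD.QQ_all n d hd (not_lt.1 hn)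
  refine h3 (h A ?_ ?_)
  · intro α
    exact h1 _ _ (α.orderEmbOfFin rfl).injective
  · intro α β hβ hc
    have hr : ∀ (γ : Finset (Fin n)) {k : ℕ} (hk : γ.card = k),
        Set.range (γ.orderEmbOfFin hk) = (γ : Set (Fin n)) := fun γ k hk =>
      Finset.range_orderEmbOfFin γ hk
    have hc2 : (β \ α).card ≤ d := by
      have := Finset.card_sdiff_comm hβ.symm
      omega
    have h4 := h2 _ α β (α.orderEmbOfFin rfl) (β.orderEmbOfFin hβ)
      (α.orderEmbOfFin rfl).injective (β.orderEmbOfFin hβ).injective (hr α rfl) (hr β hβ) hc hc2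
    have h5 : minor A β α hβ.symm =
        (A.submatrix (β.orderEmbOfFin hβ) (α.orderEmbOfFin rfl)).det := by
      unfold minor
      rw [← det_submatrix_equiv_self (finCongr hβ)
        (A.submatrix (β.orderEmbOfFin hβ) (α.orderEmbOfFin rfl))]
      congr 1
    rw [h5]
    exact h4

/-- **The minimal dispersal `d(n)` is larger than `n / 900`; in particular no single `d` is enough for
all orders `n`.** -/
theorem result : (∀ n d : ℕ, 1 ≤ d → Forces n d → n < 900 * d) ∧ ¬ ∃ d : ℕ, ∀ n : ℕ, Forces n d := by
  refine ⟨main, ?_⟩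
  rintro ⟨d, hd⟩
  have h1 : Forces (900 * (d + 1)) (d + 1) := by
    intro A hA hS
    exact hd _ A hA fun α β h hc => hS α β h (by omega)
  exact absurd (main _ _ (by omega) h1) (lt_irrefl _)

end Pool.Agent.Results.MP_40f31b_al.LinearDispersal
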